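import Pool.Agent.W97.KE.Stm

set_option autoImplicit false

namespace Pool.Agent.W778.KE

open Pool.Agent.W97.KE

theorem s_dual : S_DUAL := by
  classical
  intro R A _ _ _ F f hf
  let Φ : A →ₗ[R] (F → A) := LinearMap.pi fun j => LinearMap.lsmul R A j.1
  have hΦ : ∀ a (j : F), Φ a j = j.1 • a := fun a j => rfl
  let K := LinearMap.ker Φ
  have hK : ∀ a ∈ K, f a = 0 := by
    intro a ha
    refine hf a fun j hj => ?_
    have h1 : Φ a = 0 := ha
    have h2 := congrFun h1 ⟨j, hj⟩
    rwa [hΦ] at h2
  let fq : CharacterModule (A ⧸ K) :=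
    (QuotientAddGroup.lift K.toAddSubgroup f (fun a ha => hK a ha) :
      A ⧸ K.toAddSubgroup →+ AddCircle (1 : ℚ))
  have hfq : ∀ a : A, fq (K.mkQ a) = f a := fun a => rfl
  let Φq : (A ⧸ K) →ₗ[R] (F → A) := K.liftQ Φ le_rfl
  have hinj : Function.Injective Φq := by
    rw [← LinearMap.ker_eq_bot]
    exact Submodule.ker_liftQ_eq_bot _ _ _ le_rfl
  obtain ⟨g, hg⟩ := CharacterModule.dual_surjective_of_injective Φq hinj fq
  have key : f = ∑ j : F, (j.1 • (CharacterModule.dual
      (LinearMap.single R (fun _ : F => A) j) g) : CharacterModule A) := by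
    apply CharacterModule.ext
    intro a
    have h1 : f a = g (Φ a) := by
      rw [← hfq a, ← hg]
      rfl
    have h2 : Φ a = ∑ j : F, LinearMap.single R (fun _ : F => A) j (j.1 • a) := by
      funext i
      rw [Finset.sum_apply, Finset.sum_eq_single i]
      · simp [hΦ]
      · intro b _ hb
        simp [Ne.symm hb]
      · simp
    have h3 : (∑ j : F, (j.1 • (CharacterModule.dual
      (LinearMap.single R (fun _ : F => A) j) g) : CharacterModule A)) a =
        ∑ j : F, (j.1 • (CharacterModule.dual
      (LinearMap.single R (fun _ : F => A) j) g) : CharacterModule A) a :=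
      AddMonoidHom.finsetSum_apply _ _ _
    rw [h3, h1, h2, map_sum]
    rfl
  rw [key]
  refine Submodule.sum_mem _ fun j _ => ?_
  exact Submodule.smul_mem_smul (Ideal.subset_span (by exact_mod_cast j.2)) Submodule.mem_top

end Pool.Agent.W778.KE
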