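import Pool.Agent.W97.KE.Stm

set_option autoImplicit false

namespace Pool.Agent.W778.KE

open Pool.Agent.W97.KE
open scoped Topology
open scoped Classical

section
variable {W : WeierstrassCurve ℤ} {p l : ℕ}

theorem noTors_pow (hN : NoTors W p l) : ∀ (k : ℕ) (P : Pt W Qb), p ^ k • P = 0 →
    (∀ g ∈ H p l, act W g P = P) → P = 0 := by
  intro k
  induction k with
  | zero => intro P h _; simpa using h
  | succ k ih =>
    intro P h hg
    refine ih P ?_ hg
    refine hN _ ?_ ?_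
    · rw [← mul_smul, ← pow_succ']; exact h
    · intro g hgH
      rw [map_nsmul, hg g hgH]

theorem tors_add {P Q : Pt W Qb} (hP : ∃ k : ℕ, p ^ k • P = 0) (hQ : ∃ k : ℕ, p ^ k • Q = 0) :
    ∃ k : ℕ, p ^ k • (P + Q) = 0 := by
  obtain ⟨k, hk⟩ := hP
  obtain ⟨j, hj⟩ := hQ
  refine ⟨k + j, ?_⟩
  rw [smul_add, pow_add, mul_smul, mul_smul, hj, smul_comm, hk]
  simp

theorem tors_sub {P Q : Pt W Qb} (hP : ∃ k : ℕ, p ^ k • P = 0) (hQ : ∃ k : ℕ, p ^ k • Q = 0) :
    ∃ k : ℕ, p ^ k • (P - Q) = 0 := by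
  obtain ⟨k, hk⟩ := hP
  obtain ⟨j, hj⟩ := hQ
  refine ⟨k + j, ?_⟩
  rw [smul_sub, pow_add, mul_smul, mul_smul, hj, smul_comm, hk]
  simp

theorem tors_act {P : Pt W Qb} (g : GQ) (hP : ∃ k : ℕ, p ^ k • P = 0) :
    ∃ k : ℕ, p ^ k • (act W g P) = 0 := by
  obtain ⟨k, hk⟩ := hP
  exact ⟨k, by rw [← map_nsmul, hk, map_zero]⟩

theorem uniq (hN : NoTors W p l) {P Q : Pt W Qb} (hP : ∃ k : ℕ, p ^ k • P = 0)
    (hQ : ∃ k : ℕ, p ^ k • Q = 0)
    (h : ∀ g : H p l, act W g.1 P - P = act W g.1 Q - Q) : P = Q := by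
  obtain ⟨k, hk⟩ := tors_sub hP hQ
  rw [← sub_eq_zero]
  refine noTors_pow hN k _ hk ?_
  intro g hg
  rw [map_sub]
  exact sub_eq_sub_iff_sub_eq_sub.1 (h ⟨g, hg⟩)

theorem cocycle_one {m : ℕ} {c : H p m → Pt W Qb} (hc : IsCocycle W p m c) : c 1 = 0 := by
  have h := hc.mul 1 1
  rw [mul_one] at h
  have h2 : act W (1 : H p m).1 (c 1) = c 1 := act_one W _
  rw [h2] at h
  exact left_eq_add.1 h

theorem conj_mem' {m : ℕ} (h g : GQ) (hg : g ∈ H p m) : h⁻¹ * g * h ∈ H p m := by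
  simpa using (inferInstance : (H p m).Normal).conj_mem g hg h⁻¹

theorem fix_nhds (l : ℕ) (hl : 1 ≤ l) : ∀ᶠ g in 𝓝 (1 : GQ), ∀ z : Qb, z ^ l = 1 → g z = z := by
  classical
  let S : Set Qb := {z | z ^ l = 1}
  have hS : S.Finite := by
    refine (Polynomial.nthRoots l (1 : Qb)).toFinset.finite_toSet.subset ?_
    intro z hz
    simp only [Finset.mem_coe, Multiset.mem_toFinset]
    rw [Polynomial.mem_nthRoots (by omega)]
    exact hz
  have : Finite S := hS
  let E := IntermediateField.adjoin ℚ S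
  have hint : ∀ x ∈ S, IsIntegral ℚ x := by
    intro x hx
    refine IsIntegral.of_pow (n := l) (by omega) ?_
    have hx' : x ^ l = 1 := hx
    rw [hx']
    exact isIntegral_one
  have : FiniteDimensional ℚ E := IntermediateField.finiteDimensional_adjoin hint
  have h1 : IsOpen (E.fixingSubgroup : Set GQ) := E.fixingSubgroup_isOpen
  filter_upwards [h1.mem_nhds (one_mem _)] with g hg z hz
  exact (IntermediateField.mem_fixingSubgroup_iff _ _).1 hg z
    (IntermediateField.subset_adjoin ℚ S hz)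

theorem mem_of_fix (hp : p.Prime) (hl : 1 ≤ l) {g : GQ} (hg : g ∈ H p 1)
    (hf : ∀ z : Qb, z ^ l = 1 → g z = z) : g ∈ H p l := by
  obtain ⟨a, l', hl', rfl⟩ := Nat.exists_eq_pow_mul_and_not_dvd (by omega : l ≠ 0) p hp.ne_one
  intro n z hz
  have hcop : Nat.gcd l' (p ^ (a + n + 1)) = 1 :=
    Nat.Coprime.pow_right _ ((Nat.Prime.coprime_iff_not_dvd hp).2 hl').symm
  have hexp : p ^ a * l' * p ^ (n + 1) = l' * p ^ (a + n + 1) := by ring
  rw [hexp] at hz
  have h1 : (z ^ l') ^ (p ^ (a + n + 1)) = 1 := by rw [← pow_mul]; exact hz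
  have h2 : (z ^ (p ^ (a + n + 1))) ^ l' = 1 := by rw [← pow_mul, mul_comm]; exact hz
  have g1 : g (z ^ l') = z ^ l' := hg (a + n) _ (by simpa using h1)
  have g2 : g (z ^ (p ^ (a + n + 1))) = z ^ (p ^ (a + n + 1)) := hf _ (by
    rw [mul_comm, pow_mul, h2, one_pow])
  have hz0 : z ≠ 0 := by
    rintro rfl
    have hl0 : l' ≠ 0 := by rintro rfl; exact hl' (dvd_zero _)
    have hp0 : p ≠ 0 := hp.ne_zero
    rw [zero_pow (mul_ne_zero hl0 (pow_ne_zero _ hp0))] at hz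
    exact zero_ne_one hz
  have e1 : (g z / z) ^ l' = 1 := by
    rw [div_pow, ← map_pow, g1, div_self (pow_ne_zero _ hz0)]
  have e2 : (g z / z) ^ (p ^ (a + n + 1)) = 1 := by
    rw [div_pow, ← map_pow, g2, div_self (pow_ne_zero _ hz0)]
  have e3 : (g z / z) ^ (Nat.gcd l' (p ^ (a + n + 1))) = 1 := pow_gcd_eq_one.2 ⟨e1, e2⟩
  rw [hcop, pow_one] at e3
  exact (div_eq_one_iff_eq hz0).1 e3

/-- a cocycle of `H p l`, moved by an element `h` of `H p l` -/
theorem cact_sub_self {m : ℕ} {c : H p m → Pt W Qb} (hc : IsCocycle W p m c) (h g : H p m) :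
    cact W p m h.1 c g - c g = act W g.1 (c h) - c h := by
  have n1 := conj_mem' (p := p) (m := m) h.1 g.1 g.2
  rw [cact_apply W p m h.1 c g ⟨_, n1⟩ rfl]
  have h1 := hc.mul h ⟨_, n1⟩
  have h2 := hc.mul g h
  have h3 : h * ⟨_, n1⟩ = g * h := by
    apply Subtype.ext
    change h.1 * (h.1⁻¹ * g.1 * h.1) = g.1 * h.1
    group
  rw [h3, h2] at h1
  have h4 : act W h.1 (c ⟨h.1⁻¹ * g.1 * h.1, n1⟩) = c g + act W g.1 (c h) - c h :=
    eq_sub_of_add_eq' h1.symm
  rw [h4]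
  abel

theorem s_ext : S_EXT := by
  intro W p l hp hl hN c hc hyp
  choose P hPt hP using hyp
  let d : H p 1 → Pt W Qb := fun h => P h.1 h.2
  have hd : ∀ h : H p 1, ∀ g : H p l, cact W p l h.1 c g - c g = act W g.1 (d h) - d h :=
    fun h g => hP h.1 h.2 g
  have hdt : ∀ h : H p 1, ∃ k : ℕ, p ^ k • d h = 0 := fun h => hPt h.1 h.2
  have hle : H p l ≤ H p 1 := H_mono p (one_dvd l)
  -- `d = c` on `H p l`
  have hdc : ∀ h : H p l, d ⟨h.1, hle h.2⟩ = c h := by
    intro h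
    refine uniq hN (hdt _) (hc.tors h) ?_
    intro g
    rw [← hd ⟨h.1, hle h.2⟩ g]
    exact cact_sub_self hc h g
  -- cocycle relation
  have hmul : ∀ g h : H p 1, d (g * h) = d g + act W g.1 (d h) := by
    intro h h'
    refine uniq hN (hdt _) (tors_add (hdt _) (tors_act _ (hdt _))) ?_
    intro g
    rw [← hd (h * h') g]
    have n1 := conj_mem' (p := p) (m := l) h.1 g.1 g.2
    have e1 : cact W p l (h * h').1 c g = act W h.1 (cact W p l h'.1 c ⟨_, n1⟩) := by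
      change cact W p l (h.1 * h'.1) c g = _
      rw [cact_mul, cact_apply W p l h.1 _ g ⟨_, n1⟩ rfl]
    have e2 : cact W p l h'.1 c ⟨_, n1⟩ = c ⟨_, n1⟩ +
        (act W (h.1⁻¹ * g.1 * h.1) (d h') - d h') := by
      rw [← hd h' ⟨_, n1⟩]; abel
    have e3 : act W h.1 (c ⟨_, n1⟩) = c g + (act W g.1 (d h) - d h) := by
      rw [← hd h g, cact_apply W p l h.1 c g ⟨_, n1⟩ rfl]; abel
    have e4 : act W h.1 (act W (h.1⁻¹ * g.1 * h.1) (d h')) = act W g.1 (act W h.1 (d h')) := by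
      rw [← act_mul, ← act_mul]
      congr 1
      congr 1
      group
    rw [e1, e2, map_add, map_sub, e3, e4, map_add]
    abel
  have hone : ∀ᶠ v in 𝓝 (1 : H p 1), d v = 0 := by
    have h1 : ∀ᶠ g in 𝓝 (1 : H p l), c g = 0 := by
      filter_upwards [hc.cont.eventually_eq 1] with g hg
      rw [hg, cocycle_one hc]
    rw [nhds_subtype_eq_comap, Filter.eventually_comap] at h1
    have h2 := fix_nhds l hl
    have h3 : ∀ᶠ g in 𝓝 (1 : GQ), (∀ a : H p l, a.1 = g → c a = 0) ∧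
        ∀ z : Qb, z ^ l = 1 → g z = z := h1.and h2
    have h4 : Filter.Tendsto (fun v : H p 1 => v.1) (𝓝 1) (𝓝 (1 : GQ)) :=
      (continuous_subtype_val : Continuous fun v : H p 1 => v.1).continuousAt
    filter_upwards [h4.eventually h3] with v hv
    have hvl : v.1 ∈ H p l := mem_of_fix hp hl v.2 hv.2
    have := hdc ⟨v.1, hvl⟩
    change d v = _ at this
    rw [this]
    exact hv.1 ⟨v.1, hvl⟩ rfl
  refine ⟨d, ⟨?_, hdt, hmul⟩, ?_⟩
  · rw [IsLocallyConstant.iff_eventually_eq]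
    intro h
    have h4 : Filter.Tendsto (fun v : H p 1 => h⁻¹ * v) (𝓝 h) (𝓝 1) := by
      have : Continuous fun v : H p 1 => h⁻¹ * v := continuous_const.mul continuous_id
      have h5 := this.tendsto h
      rwa [inv_mul_cancel] at h5
    filter_upwards [h4.eventually hone] with v hv
    have h6 := hmul h (h⁻¹ * v)
    rw [hv, map_zero, add_zero, mul_inv_cancel_left] at h6
    exact h6
  · funext h
    exact hdc h

theorem s_inj : S_INJ := by
  intro W p l hp hN d hd P hPt hP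
  have hle : H p l ≤ H p 1 := H_mono p (one_dvd l)
  have h0 : ∀ g : H p l, d ⟨g.1, hle g.2⟩ - (act W g.1 P - P) = 0 := by
    intro g
    rw [← hP g]
    exact sub_self _
  intro h
  rw [← sub_eq_zero]
  obtain ⟨k, hk⟩ := tors_sub (hd.tors h) (tors_sub (tors_act h.1 hPt) hPt)
  refine noTors_pow hN k _ hk ?_
  intro g hg
  have n1 := conj_mem' (p := p) (m := l) h.1 g hg
  have h1 := hd.mul ⟨g, hle hg⟩ h
  have h2 := hd.mul h ⟨_, hle n1⟩
  have h3 : (⟨g, hle hg⟩ : H p 1) * h = h * ⟨_, hle n1⟩ := by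
    apply Subtype.ext
    change g * h.1 = h.1 * (h.1⁻¹ * g * h.1)
    group
  rw [h3, h2] at h1
  have h4 : d ⟨g, hle hg⟩ = act W g P - P := by
    have := h0 ⟨g, hg⟩
    exact sub_eq_zero.1 this
  have h5 : d ⟨_, hle n1⟩ = act W (h.1⁻¹ * g * h.1) P - P := by
    have := h0 ⟨_, n1⟩
    exact sub_eq_zero.1 this
  have e4 : act W h.1 (act W (h.1⁻¹ * g * h.1) P) = act W g (act W h.1 P) := by
    rw [← act_mul, ← act_mul]
    congr 1
    congr 1
    group
  rw [h4, h5, map_sub, e4] at h1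
  change d h + (act W g (act W h.1 P) - act W h.1 P) = act W g P - P + act W g (d h) at h1
  rw [map_sub, map_sub]
  have h6 : act W g (d h) = d h + (act W g (act W h.1 P) - act W h.1 P) - (act W g P - P) :=
    eq_sub_of_add_eq' h1.symm
  rw [h6]
  abel

end

end Pool.Agent.W778.KE
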